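import Pool.Agent.Lib.MP_da416c_pr.UpperFinal
import Pool.Agent.Lib.MP_da416c_pr.Lower

/-!
# Every infinite countable group has percolation threshold one
-/

open Pool.Agent.Lib.MP_da416c_pr

namespace Pool.Agent.Results.MP_da416c_pr.ThresholdOne

/-- **The percolation threshold of every infinite countable group equals `1`.** -/
theorem result (Γ : Type*) [Group Γ] [Countable Γ] [Infinite Γ] : percThreshold Γ = 1 :=
  le_antisymm percThreshold_le_one (le_iInf fun μ => one_le_lambdaC μ)

end Pool.Agent.Results.MP_da416c_pr.ThresholdOne
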